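import Pool.Agent.W778.GS.Defs

set_option autoImplicit false

namespace Pool.Agent.W778.GS

open Cardinal Filter Pool.Agent.W873.Tp

theorem pick {κ : Cardinal.{0}} {X : Type} {U : Ultrafilter (Set X)} (h : NormalFine κ X U)
    {ι : Type} (hι : #ι < κ) {Q : Set X → ι → Prop}
    (hQ : ∀ᶠ x in (U : Filter (Set X)), ∃ i, Q x i) :
    ∃ i, ∀ᶠ x in (U : Filter (Set X)), Q x i := by
  by_contra hc
  push Not at hc
  obtain ⟨x, ⟨i, h2⟩, h3⟩ := (hQ.and (h.complete ι (fun i x => ¬ Q x i) hι hc)).exists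
  exact h3 i h2

variable {R J : Type}

/-- the hull of `s` -/
def Mm (s : Set (J → R)) : Set R := {y | ∃ g ∈ s, ∃ ξ, g ξ = y}

theorem core {κ : ℕ → Cardinal.{0}} (hs : ∀ m, IsSupercompact (κ m)) {E : R → R → Prop}
    {θ μ : Cardinal.{0}} (hR : IsH θ R E) (hμθ : μ < θ) [Nonempty J] [Nonempty R] (hJ : #J ≤ μ)
    (hμ : ℵ₀ ≤ μ) (hκ : ∀ m, κ m ≤ μ) (r : J → ℕ) (hr : ∀ m, #{i // r i ≤ m} < κ (m + 1))
    (U : Ultrafilter (Set (J → R))) (hU : NormalFine (κ 0) (J → R) U)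
    (hint : ∀ᶠ s in (U : Filter (Set (J → R))), ∀ a ∈ Mm s, ∀ b ∈ Mm s,
      ∃ c ∈ Mm s, ∀ y, E y c ↔ E y a ∧ E y b) :
    ∀ᶠ s in (U : Filter (Set (J → R))), IsGuessing (Order.succ μ) E (Mm s) := by
  classical
  by_contra hc
  rw [← Ultrafilter.eventually_not] at hc
  have hc' : ∀ᶠ s in (U : Filter (Set (J → R))), ∃ p : R × Set R, p.1 ∈ Mm s ∧
      (∀ y ∈ p.2, E y p.1) ∧
      (∀ Z ∈ Mm s, #{y | E y Z} < Order.succ μ → ∃ w ∈ Mm s, ∀ y, E y w ↔ y ∈ p.2 ∧ E y Z) ∧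
      ¬ ∃ e ∈ Mm s, (∀ y, E y e → E y p.1) ∧ ∀ y ∈ Mm s, E y e ↔ y ∈ p.2 := by
    refine hc.mono fun s hs => ?_
    by_contra h'
    apply hs
    intro X hX d h1 h2
    by_contra h3
    exact h' ⟨(X, d), hX, h1, h2, h3⟩
  obtain ⟨pf, hpf⟩ := hc'.choice
  set Xf : Set (J → R) → R := fun s => (pf s).1 with hXf
  set df : Set (J → R) → Set R := fun s => (pf s).2 with hdf
  have hX : ∀ᶠ s in (U : Filter (Set (J → R))), Xf s ∈ Mm s := hpf.mono fun s h => h.1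
  have hd : ∀ᶠ s in (U : Filter (Set (J → R))), ∀ y ∈ df s, E y (Xf s) :=
    hpf.mono fun s h => h.2.1
  have happ : ∀ᶠ s in (U : Filter (Set (J → R))), ∀ Z ∈ Mm s, #{y | E y Z} < Order.succ μ →
      ∃ w ∈ Mm s, ∀ y, E y w ↔ y ∈ df s ∧ E y Z := hpf.mono fun s h => h.2.2.1
  have hng : ∀ᶠ s in (U : Filter (Set (J → R))), ¬ ∃ e ∈ Mm s, (∀ y, E y e → E y (Xf s)) ∧
      ∀ y ∈ Mm s, E y e ↔ y ∈ df s := hpf.mono fun s h => h.2.2.2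
  -- the bound
  obtain ⟨g, hg⟩ := hU.const (Q := fun s g => ∃ ξ, g ξ = Xf s) hX
  set B : Set R := ⋃ ξ, {y | E y (g ξ)} with hB
  have hBθ : #B < θ := by
    rw [hB]
    exact (card_iUnion_lt_iff_forall_of_isRegular hR.regular (hJ.trans_lt hμθ)).2
      fun ξ => hR.small _
  have hdB : ∀ᶠ s in (U : Filter (Set (J → R))), ∀ y ∈ df s, y ∈ B := by
    filter_upwards [hd, hg] with s h1 h2 y hy
    obtain ⟨ξ, hξ⟩ := h2
    refine Set.mem_iUnion.2 ⟨ξ, ?_⟩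
    show E y (g ξ)
    rw [hξ]
    exact h1 y hy
  -- codes
  let code : Set R → R := fun s => if h : #s < θ then (hR.full s h).choose else Classical.arbitrary R
  have hcode : ∀ s : Set R, #s < θ → ∀ y, E y (code s) ↔ y ∈ s := by
    intro s h y
    simp only [code, dif_pos h]
    exact (hR.full s h).choose_spec y
  have hsm : ∀ s : Set R, #s ≤ μ → #s < θ := fun s h => h.trans_lt hμθ
  let Q0 : Set R → (J → R) → ℕ → Prop := fun z f m =>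
    ∀ᶠ s in (U : Filter (Set (J → R))), ∃ ξ, r ξ ≤ m ∧ ∀ y, E y (f ξ) ↔ (y ∈ df s ∧ y ∈ z)
  have H1 : ∀ z : Set R, #z ≤ μ → ∃ f m, Q0 z f m := by
    intro z hz
    have hset : {y | E y (code z)} = z := by
      ext y
      exact hcode z (hsm z hz) y
    have h1 : ∀ᶠ s in (U : Filter (Set (J → R))), ∃ f ∈ s, ∃ ξ, ∀ y, E y (f ξ) ↔
        (y ∈ df s ∧ y ∈ z) := by
      filter_upwards [happ, hU.fine (fun _ => code z)] with s h2 h3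
      obtain ⟨w, ⟨f, hf, ξ, hξ⟩, hw⟩ := h2 (code z) ⟨_, h3, Classical.arbitrary J, rfl⟩
        (by rw [hset]; exact Order.lt_succ_iff.2 hz)
      refine ⟨f, hf, ξ, fun y => ?_⟩
      rw [hξ, hw, hcode z (hsm z hz)]
    obtain ⟨f, hf⟩ := hU.const h1
    have h2 : ∀ᶠ s in (U : Filter (Set (J → R))), ∃ m : ℕ, ∃ ξ, r ξ ≤ m ∧
        ∀ y, E y (f ξ) ↔ (y ∈ df s ∧ y ∈ z) :=
      hf.mono fun s ⟨ξ, hξ⟩ => ⟨r ξ, ξ, le_rfl, hξ⟩
    obtain ⟨m, hm⟩ := pick hU (by rw [mk_nat]; exact (hs 0).1) h2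
    exact ⟨f, m, hm⟩
  have H2 : ∀ (z z' : Set R) (f' : J → R) (m : ℕ), z ⊆ z' → #z ≤ μ → Q0 z' f' m →
      ∃ f, Q0 z f m := by
    intro z z' f' m hzz hz h
    refine ⟨fun ξ => code ({y | E y (f' ξ)} ∩ z), h.mono fun s => ?_⟩
    rintro ⟨ξ, h1, h2⟩
    refine ⟨ξ, h1, fun y => ?_⟩
    rw [hcode _ (hsm _ ((mk_le_mk_of_subset Set.inter_subset_right).trans hz))]
    constructor
    · rintro ⟨h3, h4⟩
      exact ⟨((h2 y).1 h3).1, h4⟩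
    · rintro ⟨h3, h4⟩
      exact ⟨(h2 y).2 ⟨h3, hzz h4⟩, h4⟩
  have H3 : ∃ m, ∀ z : {z : Set R // #z ≤ μ}, ∃ f, Q0 z.1 f m := by
    by_contra hcon
    push Not at hcon
    choose z hz using hcon
    have hZ : #(⋃ m, (z m).1 : Set R) ≤ μ := by
      refine (mk_iUnion_le _).trans ?_
      rw [mk_nat]
      refine (mul_le_mul' le_rfl (ciSup_le' fun m => (z m).2)).trans ?_
      rw [aleph0_mul_eq hμ]
    obtain ⟨f, m, h⟩ := H1 _ hZ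
    obtain ⟨f', h'⟩ := H2 (z m).1 _ f m (Set.subset_iUnion (fun m => (z m).1) m) (z m).2 h
    exact hz m f' h'
  obtain ⟨m, hm⟩ := H3
  choose f hf using hm
  -- the second ultrafilter
  obtain ⟨W, hW⟩ := (hs (m + 1)).2 {z : Set R // #z ≤ μ}
  have h0 : #(∅ : Set R) ≤ μ := by simp
  let u : Set {z : Set R // #z ≤ μ} → {z : Set R // #z ≤ μ} := fun t =>
    if h : #(⋃ z : t, z.1.1 : Set R) ≤ μ then ⟨_, h⟩ else ⟨∅, h0⟩
  have hu : ∀ z : {z : Set R // #z ≤ μ}, ∀ᶠ t in (W : Filter _), z.1 ⊆ (u t).1 := by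
    intro z
    filter_upwards [hW.small, hW.fine z] with t h1 h2
    have h3 : #(⋃ z : t, z.1.1 : Set R) ≤ μ := by
      refine (mk_iUnion_le _).trans ?_
      refine (mul_le_mul' (h1.le.trans (hκ _)) (ciSup_le' fun z => z.1.2)).trans ?_
      rw [mul_eq_self hμ]
    simp only [u, dif_pos h3]
    exact Set.subset_iUnion (fun z : t => z.1.1) ⟨z, h2⟩
  let e : J → Set R := fun ζ => {y | y ∈ B ∧ ∀ᶠ t in (W : Filter _), E y (f (u t) ζ)}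
  have H4 : ∀ z : {z : Set R // #z ≤ μ}, ∀ᶠ s in (U : Filter (Set (J → R))),
      ∃ ζ, ∀ y ∈ z.1, (y ∈ df s ↔ y ∈ e ζ) := by
    intro z
    by_contra hc2
    rw [← Ultrafilter.eventually_not] at hc2
    have h1 : ∀ z' : {z : Set R // #z ≤ μ}, z.1 ⊆ z'.1 → ∃ p : {i // r i ≤ m} × {i // r i ≤ m},
        (∀ y, E y (f z p.1.1) ↔ E y (f z' p.2.1) ∧ y ∈ z.1) ∧ (∀ y, E y (f z p.1.1) → y ∈ B) ∧
        ∀ ζ, ¬ ∀ y ∈ z.1, (E y (f z p.1.1) ↔ y ∈ e ζ) := by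
      intro z' hzz
      obtain ⟨s, ⟨ξ, h2, h3⟩, ⟨ξ', h2', h3'⟩, h4, h5⟩ :=
        ((hf z).and ((hf z').and (hc2.and hdB))).exists
      refine ⟨(⟨ξ, h2⟩, ⟨ξ', h2'⟩), fun y => ?_, fun y hy => h5 y ((h3 y).1 hy).1, ?_⟩
      · dsimp only
        rw [h3, h3']
        constructor
        · rintro ⟨h6, h7⟩; exact ⟨⟨h6, hzz h7⟩, h7⟩
        · rintro ⟨⟨h6, _⟩, h7⟩; exact ⟨h6, h7⟩
      · intro ζ h6
        refine h4 ⟨ζ, fun y hy => ?_⟩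
        rw [← h6 y hy]
        dsimp only
        rw [h3]
        exact ⟨fun h => ⟨h, hy⟩, fun h => h.1⟩
    have hcard : #({i // r i ≤ m} × {i // r i ≤ m}) < κ (m + 1) := by
      simp only [mk_prod, lift_id]
      exact mul_lt_of_lt (hs _).1.le (hr m) (hr m)
    obtain ⟨⟨ξ, ξ'⟩, hp⟩ := pick hW hcard ((hu z).mono fun t ht => h1 (u t) ht)
    obtain ⟨t0, h2, h3, h4⟩ := hp.exists
    refine h4 ξ'.1 fun y hy => ⟨fun h5 => ⟨h3 y h5, ?_⟩, fun h5 => ?_⟩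
    · exact hp.mono fun t ht => ((ht.1 y).1 h5).1
    · obtain ⟨t, h6, h7⟩ := (hp.and h5.2).exists
      exact (h6.1 y).2 ⟨h7, hy⟩
  -- distinguishing the branches
  have hx : ∀ ζ ζ', ∃ x, e ζ ≠ e ζ' → ¬ (x ∈ e ζ ↔ x ∈ e ζ') := by
    intro ζ ζ'
    by_cases h : e ζ = e ζ'
    · exact ⟨Classical.arbitrary R, fun h' => absurd h h'⟩
    · by_contra hcon
      push Not at hcon
      exact h (Set.ext fun x => (hcon x).2)
  choose x hx using hx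
  set z0 : Set R := Set.range fun p : J × J => x p.1 p.2 with hz0
  have hz0μ : #z0 ≤ μ := by
    refine mk_range_le.trans ?_
    simp only [mk_prod, lift_id]
    exact (mul_le_mul' hJ hJ).trans (mul_eq_self hμ).le
  have H5 : ∀ ζ ζ', (∀ y ∈ z0, (y ∈ e ζ ↔ y ∈ e ζ')) → e ζ = e ζ' := by
    intro ζ ζ' h
    by_contra hne
    exact hx ζ ζ' hne (h _ ⟨(ζ, ζ'), rfl⟩)
  obtain ⟨ζf, hζf⟩ := (H4 ⟨z0, hz0μ⟩).choice
  have H6 : ∀ z : Set R, #z ≤ μ → ∀ᶠ s in (U : Filter (Set (J → R))),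
      ∀ y ∈ z, (y ∈ df s ↔ y ∈ e (ζf s)) := by
    intro z hz
    have hu2 : #(z ∪ z0 : Set R) ≤ μ :=
      (mk_union_le _ _).trans ((add_le_add hz hz0μ).trans (add_eq_self hμ).le)
    filter_upwards [H4 ⟨z ∪ z0, hu2⟩, hζf] with s h1 h2 y hy
    obtain ⟨ζ, hζ⟩ := h1
    have : e ζ = e (ζf s) := H5 _ _ fun y hy => by
      rw [← hζ y (Or.inr hy), ← h2 y hy]
    rw [← this]
    exact hζ y (Or.inl hy)
  have H7 : ∀ᶠ s in (U : Filter (Set (J → R))), ∀ y ∈ Mm s, (y ∈ df s ↔ y ∈ e (ζf s)) := by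
    have h1 := hU.diag (Q := fun g s => ∀ y ∈ Set.range g, (y ∈ df s ↔ y ∈ e (ζf s)))
      fun g => H6 _ (mk_range_le.trans hJ)
    filter_upwards [h1] with s h2 y hy
    obtain ⟨g, hg, ξ, rfl⟩ := hy
    exact h2 g hg _ ⟨ξ, rfl⟩
  obtain ⟨s, h1, h2, h3, h4, h5, h6⟩ :=
    (H7.and (hng.and (hX.and (hd.and (hint.and (hU.fine fun ζ => code (e ζ))))))).exists
  obtain ⟨c, hc1, hc2⟩ := h5 (code (e (ζf s))) ⟨_, h6, ζf s, rfl⟩ (Xf s) h3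
  have he : ∀ ζ, #(e ζ) < θ := fun ζ => (mk_le_mk_of_subset fun y hy => hy.1).trans_lt hBθ
  refine h2 ⟨c, hc1, fun y hy => ((hc2 y).1 hy).2, fun y hy => ?_⟩
  rw [hc2, hcode _ (he _), h1 y hy]
  exact ⟨fun h => h.1, fun h => ⟨h, h4 y ((h1 y hy).2 h)⟩⟩

end Pool.Agent.W778.GS
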