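import Pool.Agent.W873.Tp.Large

set_option autoImplicit false

/-!
# Guessing models: definitions
-/

namespace Pool.Agent.W778.GS

open Cardinal

/-- `(R, E)` is isomorphic to `(H_θ, ∈)`: `θ` is regular, `E` is well-founded and extensional, and
the sets of `E`-members of points are exactly the subsets of `R` of size `< θ`. -/
structure IsH (θ : Cardinal.{0}) (R : Type) (E : R → R → Prop) : Prop where
  regular : θ.IsRegular
  wf : WellFounded E
  ext : ∀ a b, (∀ y, E y a ↔ E y b) → a = b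
  small : ∀ x, #{y | E y x} < θ
  full : ∀ s : Set R, #s < θ → ∃ x, ∀ y, E y x ↔ y ∈ s

variable {R : Type}

/-- `a` is an ordinal: transitive with transitive members. -/
def IsOrd (E : R → R → Prop) (a : R) : Prop :=
  (∀ b, E b a → ∀ c, E c b → E c a) ∧ ∀ b, E b a → ∀ c, E c b → ∀ x, E x c → E x b

/-- `k` is the cardinal successor of `μ`. -/
def IsSucc (E : R → R → Prop) (μ : Cardinal.{0}) (k : R) : Prop :=
  IsOrd E k ∧ #{y | E y k} = Order.succ μ ∧ ∀ a, E a k → #{y | E y a} ≤ μ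

/-- `k` is `κ_M`, the least ordinal in `M` which is not a subset of `M`. -/
def IsKappa (E : R → R → Prop) (M : Set R) (k : R) : Prop :=
  k ∈ M ∧ IsOrd E k ∧ (∃ y, E y k ∧ y ∉ M) ∧ ∀ a ∈ M, E a k → ∀ y, E y a → y ∈ M

/-- `M` is `δ`-guessing. -/
def IsGuessing (δ : Cardinal.{0}) (E : R → R → Prop) (M : Set R) : Prop :=
  ∀ X ∈ M, ∀ d : Set R, (∀ y ∈ d, E y X) →
    (∀ Z ∈ M, #{y | E y Z} < δ → ∃ w ∈ M, ∀ y, E y w ↔ y ∈ d ∧ E y Z) →
    ∃ e ∈ M, (∀ y, E y e → E y X) ∧ ∀ y ∈ M, E y e ↔ y ∈ d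

end Pool.Agent.W778.GS
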