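import Pool.Agent.W778.GS.Core

set_option autoImplicit false

namespace Pool.Agent.W778.GS

open Cardinal Filter Pool.Agent.W873.Tp FirstOrder

variable {R J : Type}

theorem closed_fin {κ : Cardinal.{0}} {X : Type} {U : Ultrafilter (Set X)} [Nonempty X]
    (h : NormalFine κ X U) (hκ : ℵ₀ ≤ κ) {n : ℕ} (G : (Fin n → X) → X) :
    ∀ᶠ s in (U : Filter (Set X)), ∀ g : Fin n → X, (∀ i, g i ∈ s) → G g ∈ s := by
  by_contra hc
  rw [← Ultrafilter.eventually_not] at hc
  have hc' : ∀ᶠ s in (U : Filter (Set X)), ∃ g : Fin n → X, (∀ i, g i ∈ s) ∧ G g ∉ s := by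
    refine hc.mono fun s hs => ?_
    push Not at hs
    exact hs
  obtain ⟨gf, hgf⟩ := hc'.choice
  have h1 : ∀ i, ∃ a, ∀ᶠ s in (U : Filter (Set X)), gf s i = a := fun i =>
    h.normal (fun s => gf s i) (hgf.mono fun s hs => hs.1 i)
  choose a ha using h1
  have h2 := h.complete (Fin n) (fun i s => gf s i = a i)
    (by rw [mk_fin]; exact (natCast_lt_aleph0).trans_le hκ) ha
  obtain ⟨s, h3, h4, h5⟩ := (h2.and (hgf.and (h.fine (G a)))).exists
  have : gf s = a := funext h3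
  rw [← this] at h5
  exact h4.2 h5

theorem closed_Mm {κ : Cardinal.{0}} {U : Ultrafilter (Set (J → R))} [Nonempty R] [Infinite J]
    (h : NormalFine κ (J → R) U) (hκ : ℵ₀ ≤ κ) {n : ℕ} (F : (Fin n → R) → J → R) :
    ∀ᶠ s in (U : Filter (Set (J → R))), ∀ v : Fin n → R, (∀ i, v i ∈ Mm s) → ∀ η, F v η ∈ Mm s := by
  classical
  have hcard : #((Fin n → J) × J) ≤ #J := by
    have h1 : ℵ₀ ≤ #J := aleph0_le_mk J
    simp only [mk_prod, lift_id, mk_arrow, mk_fin]
    refine (mul_le_mul' ?_ le_rfl).trans (mul_eq_self h1).le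
    rw [power_natCast]
    exact power_nat_le h1
  obtain ⟨enc⟩ := hcard
  have hne : Nonempty ((Fin n → J) × J) := inferInstance
  set dec := Function.invFun enc with hdec
  have hde : ∀ x, dec (enc x) = x := Function.leftInverse_invFun enc.injective
  have h2 := closed_fin h hκ (fun (g : Fin n → J → R) (j : J) =>
    F (fun i => g i ((dec j).1 i)) (dec j).2)
  filter_upwards [h2] with s hs v hv η
  choose g hg ξ hξ using hv
  refine ⟨_, hs g hg, enc (ξ, η), ?_⟩
  simp only [hde, hξ]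

theorem small_Mm {κ μ : Cardinal.{0}} {U : Ultrafilter (Set (J → R))}
    (h : NormalFine κ (J → R) U) (hκ : κ ≤ μ) (hμ : ℵ₀ ≤ μ) (hJ : #J ≤ μ) :
    ∀ᶠ s in (U : Filter (Set (J → R))), #(Mm s) ≤ μ := by
  filter_upwards [h.small] with s hs
  have h1 : Mm s ⊆ Set.range fun p : s × J => p.1.1 p.2 := by
    rintro y ⟨g, hg, ξ, rfl⟩
    exact ⟨(⟨g, hg⟩, ξ), rfl⟩
  refine (mk_le_mk_of_subset h1).trans (mk_range_le.trans ?_)
  simp only [mk_prod, lift_id]
  exact (mul_le_mul' (hs.le.trans hκ) hJ).trans (mul_eq_self hμ).le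

theorem cover_Mm {κ : Cardinal.{0}} {U : Ultrafilter (Set (J → R))} [Nonempty R] [Nonempty J]
    (h : NormalFine κ (J → R) U) (A : Set R) (hA : #A ≤ #J) :
    ∀ᶠ s in (U : Filter (Set (J → R))), A ⊆ Mm s := by
  classical
  have h1 : ∃ g : J → R, A ⊆ Set.range g := by
    obtain ⟨e⟩ := hA
    refine ⟨fun j => if h : ∃ a : A, e a = j then h.choose.1 else Classical.arbitrary R,
      fun a ha => ⟨e ⟨a, ha⟩, ?_⟩⟩
    have hex : ∃ b : A, e b = e ⟨a, ha⟩ := ⟨⟨a, ha⟩, rfl⟩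
    simp only [dif_pos hex]
    exact congrArg Subtype.val (e.injective hex.choose_spec)
  obtain ⟨g, hg⟩ := h1
  filter_upwards [h.fine g] with s hs a ha
  obtain ⟨j, rfl⟩ := hg ha
  exact ⟨g, hs, j, rfl⟩

theorem main {κ : ℕ → Cardinal.{0}} (hs : ∀ m, IsSupercompact (κ m)) {E : R → R → Prop}
    {θ μ : Cardinal.{0}} (hR : IsH θ R E) [Nonempty J] (hJ : #J = μ)
    (hμ : ℵ₀ ≤ μ) (hκ : ∀ m, κ m ≤ μ) (r : J → ℕ) (hr : ∀ m, #{i // r i ≤ m} < κ (m + 1))
    (L : FirstOrder.Language.{0, 0}) [L.Structure R] (hL : L.card ≤ ℵ₀) (k : R) (hk : IsSucc E μ k)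
    (A : Set R) (hA : #A ≤ μ) :
    ∃ M : L.ElementarySubstructure R, A ⊆ (M : Set R) ∧ #M ≤ μ ∧ IsKappa E (M : Set R) k ∧
      IsGuessing (Order.succ μ) E (M : Set R) := by
  classical
  have hne : Nonempty R := ⟨k⟩
  have hinf : Infinite J := infinite_iff.2 (by rw [hJ]; exact hμ)
  have hμθ : μ < θ := (Order.lt_succ μ).trans_le (by rw [← hk.2.1]; exact (hR.small k).le)
  obtain ⟨U, hU⟩ := (hs 0).2 (J → R)
  have h0 : ℵ₀ ≤ κ 0 := (hs 0).1.le
  -- intersections
  have hi : ∀ a b : R, ∃ c, ∀ y, E y c ↔ E y a ∧ E y b := fun a b =>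
    (hR.full ({y | E y a} ∩ {y | E y b})
      ((mk_le_mk_of_subset Set.inter_subset_left).trans_lt (hR.small a)))
  choose inter hinter using hi
  have h1 := closed_Mm hU h0 (n := 2) (fun v (_ : J) => inter (v 0) (v 1))
  have hint : ∀ᶠ s in (U : Filter (Set (J → R))), ∀ a ∈ Mm s, ∀ b ∈ Mm s,
      ∃ c ∈ Mm s, ∀ y, E y c ↔ E y a ∧ E y b := by
    filter_upwards [h1] with s hs a ha b hb
    refine ⟨inter a b, ?_, hinter a b⟩
    have := hs ![a, b] (by
      intro i
      fin_cases i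
      · exact ha
      · exact hb) (Classical.arbitrary J)
    simpa using this
  -- members
  have hσ : ∀ a : R, ∃ g : J → R, #{y | E y a} ≤ μ → ∀ y, E y a → ∃ j, g j = y := by
    intro a
    by_cases h : #{y | E y a} ≤ μ
    · have h' := h
      rw [← hJ] at h'
      obtain ⟨e⟩ := h'
      refine ⟨fun j => if h : ∃ a : {y | E y a}, e a = j then h.choose.1
        else Classical.arbitrary R, fun _ y hy => ⟨e ⟨y, hy⟩, ?_⟩⟩
      have hex : ∃ b : {y | E y a}, e b = e ⟨y, hy⟩ := ⟨⟨y, hy⟩, rfl⟩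
      simp only [dif_pos hex]
      exact congrArg Subtype.val (e.injective hex.choose_spec)
    · exact ⟨fun _ => Classical.arbitrary R, fun h' => absurd h' h⟩
  choose σ hσ using hσ
  have h2 := closed_Mm hU h0 (n := 1) (fun v (j : J) => σ (v 0) j)
  have hmem : ∀ᶠ s in (U : Filter (Set (J → R))), ∀ a ∈ Mm s, #{y | E y a} ≤ μ →
      ∀ y, E y a → y ∈ Mm s := by
    filter_upwards [h2] with s hs a ha hc y hy
    obtain ⟨j, rfl⟩ := hσ a hc y hy
    exact hs (fun _ => a) (fun _ => ha) j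
  -- the language
  have hcount : #(Σ n, (L.sum L.skolem₁).Functions n) < κ 0 :=
    (FirstOrder.Language.card_functions_sum_skolem₁_le.trans (max_le le_rfl hL)).trans_lt (hs 0).1
  have hfun : ∀ᶠ s in (U : Filter (Set (J → R))), ∀ F : Σ n, (L.sum L.skolem₁).Functions n,
      ∀ v : Fin F.1 → R, (∀ i, v i ∈ Mm s) → FirstOrder.Language.Structure.funMap F.2 v ∈ Mm s :=
    hU.complete _ (fun F s => ∀ v : Fin F.1 → R, (∀ i, v i ∈ Mm s) →
      FirstOrder.Language.Structure.funMap F.2 v ∈ Mm s) hcount fun F =>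
      (closed_Mm hU h0 (fun v (_ : J) => FirstOrder.Language.Structure.funMap F.2 v)).mono
        fun s hs v hv => hs v hv (Classical.arbitrary J)
  have hA' : #(insert k A : Set R) ≤ #J := by
    rw [hJ]
    refine (mk_insert_le).trans ?_
    exact (add_le_add hA (one_le_aleph0.trans hμ)).trans (add_eq_self hμ).le
  obtain ⟨s, hg, hf, hm, hsm, hcv⟩ := ((core hs hR hμθ hJ.le hμ hκ r hr U hU hint).and
    (hfun.and (hmem.and ((small_Mm hU (hκ 0) hμ hJ.le).and (cover_Mm hU _ hA'))))).exists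
  let S : (L.sum L.skolem₁).Substructure R :=
    { carrier := Mm s
      fun_mem := fun {n} F => fun v hv => hf ⟨n, F⟩ v hv }
  refine ⟨S.elementarySkolem₁Reduct, fun a ha => hcv (Or.inr ha), hsm, ⟨hcv (Or.inl rfl), hk.1,
    ?_, fun a ha hak y hy => hm a ha (hk.2.2 a hak) y hy⟩, hg⟩
  by_contra hcon
  push Not at hcon
  have h3 : #{y | E y k} ≤ #(Mm s) := mk_le_mk_of_subset fun y hy => hcon y hy
  rw [hk.2.1] at h3
  exact absurd (h3.trans hsm) (not_le.2 (Order.lt_succ μ))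

end Pool.Agent.W778.GS
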