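import Pool.Agent.W778.GS.Main

set_option autoImplicit false

namespace Pool.Agent.W778.GS

open Cardinal Filter Pool.Agent.W873.Tp FirstOrder

variable {R : Type}

/-- the ordinal `μ⁺` exists in `H_θ` for `θ > μ⁺` -/
theorem exists_succ {E : R → R → Prop} {θ μ : Cardinal.{0}} (hR : IsH θ R E)
    (hθ : Order.succ μ < θ) : ∃ k, IsSucc E μ k := by
  classical
  let W : Type := (Order.succ μ).ord.ToType
  have hW : #W = Order.succ μ := mk_ord_toType _
  have hsm : ∀ (s : Set R), #s ≤ Order.succ μ → ∃ x, ∀ y, E y x ↔ y ∈ s := fun s h =>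
    hR.full s (h.trans_lt hθ)
  have hne : Nonempty R := by
    obtain ⟨x, _⟩ := hsm ∅ (by simp)
    exact ⟨x⟩
  let code : Set R → R := fun s => if h : #s ≤ Order.succ μ then (hsm s h).choose
    else Classical.arbitrary R
  have hcode : ∀ s : Set R, #s ≤ Order.succ μ → ∀ y, E y (code s) ↔ y ∈ s := by
    intro s h y
    simp only [code, dif_pos h]
    exact (hsm s h).choose_spec y
  let f : W → R := (IsWellFounded.wf (r := ((· < ·) : W → W → Prop))).fix
    (C := fun _ => R) fun i g => code {y | ∃ (j : W) (hj : j < i), g j hj = y}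
  have hf : ∀ i, f i = code {y | ∃ j, j < i ∧ f j = y} := by
    intro i
    have h1 := (IsWellFounded.wf (r := ((· < ·) : W → W → Prop))).fix_eq
      (C := fun _ => R) (fun i g => code {y | ∃ (j : W) (hj : j < i), g j hj = y}) i
    refine h1.trans ?_
    congr 1
    ext y
    constructor
    · rintro ⟨j, hj, h⟩; exact ⟨j, hj, h⟩
    · rintro ⟨j, hj, h⟩; exact ⟨j, hj, h⟩
  have hIio : ∀ i : W, #(Set.Iio i) ≤ μ := fun i => by
    have h1 : #(Set.Iio i) < Order.succ μ := mk_Iio_ord_toType i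
    exact Order.lt_succ_iff.1 h1
  have hsz : ∀ i : W, #{y | ∃ j, j < i ∧ f j = y} ≤ μ := by
    intro i
    have h1 : {y | ∃ j, j < i ∧ f j = y} = f '' (Set.Iio i) := by
      ext y
      constructor
      · rintro ⟨j, hj, h⟩; exact ⟨j, hj, h⟩
      · rintro ⟨j, hj, h⟩; exact ⟨j, hj, h⟩
    rw [h1]
    exact mk_image_le.trans (hIio i)
  have hmem : ∀ i y, E y (f i) ↔ ∃ j, j < i ∧ f j = y := by
    intro i y
    rw [hf i, hcode _ ((hsz i).trans (Order.le_succ μ))]
    rfl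
  have hinj : Function.Injective f := by
    intro i j hij
    rcases lt_trichotomy i j with h | h | h
    · exact absurd ((hmem j (f i)).2 ⟨i, h, rfl⟩) (by rw [hij]; exact hR.wf.irrefl.irrefl _)
    · exact h
    · exact absurd ((hmem i (f j)).2 ⟨j, h, rfl⟩) (by rw [hij]; exact hR.wf.irrefl.irrefl _)
  have hrange : #(Set.range f) = Order.succ μ := by rw [mk_range_eq f hinj, hW]
  have hk : ∀ y, E y (code (Set.range f)) ↔ y ∈ Set.range f := hcode _ hrange.le
  refine ⟨code (Set.range f), ⟨?_, ?_⟩, ?_, ?_⟩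
  · intro b hb c hc
    obtain ⟨i, rfl⟩ := (hk b).1 hb
    obtain ⟨j, _, rfl⟩ := (hmem i c).1 hc
    exact (hk _).2 ⟨j, rfl⟩
  · intro b hb c hc x hx
    obtain ⟨i, rfl⟩ := (hk b).1 hb
    obtain ⟨j, hj, rfl⟩ := (hmem i c).1 hc
    obtain ⟨l, hl, rfl⟩ := (hmem j x).1 hx
    exact (hmem i _).2 ⟨l, hl.trans hj, rfl⟩
  · have : {y | E y (code (Set.range f))} = Set.range f := by
      ext y
      exact hk y
    rw [this, hrange]
  · intro a ha
    obtain ⟨i, rfl⟩ := (hk a).1 ha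
    have : {y | E y (f i)} = {y | ∃ j, j < i ∧ f j = y} := by
      ext y
      exact hmem i y
    rw [this]
    exact hsz i

/-- the index type -/
theorem exists_index {κ : ℕ → Cardinal.{0}} (hκ : StrictMono κ) (h0 : ∀ n, ℵ₀ < κ n) :
    ∃ (J : Type) (r : J → ℕ), #J = (⨆ n, κ n) ∧ ∀ m, #{i // r i ≤ m} < κ (m + 1) := by
  have hb : BddAbove (Set.range κ) := bddAbove_range κ
  have hle : ∀ n, κ n ≤ ⨆ n, κ n := fun n => le_ciSup hb n
  refine ⟨Σ n, (κ n).out, Sigma.fst, ?_, ?_⟩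
  · rw [mk_sigma]
    simp only [mk_out]
    refine le_antisymm ?_ (ciSup_le' fun n => le_sum κ n)
    refine (sum_le_mk_mul_iSup κ).trans ?_
    rw [mk_nat]
    exact (aleph0_mul_eq ((h0 0).le.trans (hle 0))).le
  · intro m
    have hemb : ∀ n, n ≤ m → Nonempty ((κ n).out ↪ (κ m).out) := fun n hn => by
      rw [← Cardinal.le_def, mk_out, mk_out]
      exact hκ.monotone hn
    let F : {i : Σ n, (κ n).out // i.1 ≤ m} → ℕ × (κ m).out :=
      fun i => (i.1.1, (hemb i.1.1 i.2).some i.1.2)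
    have hF : Function.Injective F := by
      rintro ⟨⟨n, a⟩, hn⟩ ⟨⟨n', a'⟩, hn'⟩ h
      simp only [F, Prod.mk.injEq] at h
      obtain ⟨rfl, h2⟩ := h
      have := (hemb n hn).some.injective h2
      subst this
      rfl
    refine (mk_le_of_injective hF).trans_lt ?_
    simp only [mk_prod, lift_id, mk_nat, mk_out]
    rw [aleph0_mul_eq (h0 m).le]
    exact hκ (Nat.lt_succ_self m)

theorem final {κ : ℕ → Cardinal.{0}} (hκ : StrictMono κ) (hs : ∀ n, IsSupercompact (κ n))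
    {μ : Cardinal.{0}} (hμ : μ = ⨆ n, κ n) {θ : Cardinal.{0}} (hθ : Order.succ μ < θ)
    {E : R → R → Prop} (hR : IsH θ R E) (L : FirstOrder.Language.{0, 0}) [L.Structure R]
    (hL : L.card ≤ ℵ₀) (A : Set R) (hA : #A ≤ μ) :
    (ℵ₀ ≤ μ ∧ ¬ μ.IsRegular) ∧ ∃ (M : L.ElementarySubstructure R) (k : R),
      A ⊆ (M : Set R) ∧ #M = μ ∧ IsSucc E μ k ∧ IsKappa E (M : Set R) k ∧
        IsGuessing (Order.succ μ) E (M : Set R) := by
  classical
  have hb : BddAbove (Set.range κ) := bddAbove_range κ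
  have hle : ∀ n, κ n ≤ μ := fun n => by rw [hμ]; exact le_ciSup hb n
  have hinf : ℵ₀ < μ := (hs 0).1.trans_le (hle 0)
  refine ⟨⟨hinf.le, fun hreg => ?_⟩, ?_⟩
  · have h1 : (⨆ n, κ n) < μ := iSup_lt_of_isRegular hreg (by rw [mk_nat]; exact hinf)
      fun n => (hκ (Nat.lt_succ_self n)).trans_le (hle _)
    exact absurd hμ h1.ne'
  · obtain ⟨k, hk⟩ := exists_succ hR hθ
    obtain ⟨J, r, hJ, hr⟩ := exists_index hκ fun n => (hs n).1
    rw [← hμ] at hJ
    have hJne : Nonempty J := mk_ne_zero_iff.1 (by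
      rw [hJ]; exact (aleph0_pos.trans hinf).ne')
    obtain ⟨A', hA'1, hA'2⟩ : ∃ A' : Set R, A' ⊆ {y | E y k} ∧ #A' = μ := by
      refine le_mk_iff_exists_subset.1 ?_
      rw [hk.2.1]
      exact Order.le_succ μ
    have hAA : #(A ∪ A' : Set R) ≤ μ :=
      (mk_union_le _ _).trans ((add_le_add hA hA'2.le).trans (add_eq_self hinf.le).le)
    obtain ⟨M, h1, h2, h3, h4⟩ := main hs hR hJ hinf.le hle r hr L hL k hk (A ∪ A') hAA
    refine ⟨M, k, fun a ha => h1 (Or.inl ha), le_antisymm h2 ?_, hk, h3, h4⟩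
    calc μ = #A' := hA'2.symm
      _ ≤ #(M : Set R) := mk_le_mk_of_subset fun a ha => h1 (Or.inr ha)

end Pool.Agent.W778.GS
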